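import Mathlib
import Pool.Agent.W795.DD.Stm
import Pool.Agent.W785.DF.Alg

/-!
# Project DD, subtask DD-LIMIT: the limit of the Galerkin solutions
-/

set_option autoImplicit false

open MeasureTheory Set Filter Topology
open scoped ContDiff InnerProductSpace

namespace Pool.Agent.W143.DD.Limit

open H459R3.NS (V K3)
open Pool.Agent.W785.DF (E3 dk kv cj Pk Nl Fld Fr)
open Pool.Agent.W795.DD

/-! ### frequencies -/

theorem sq_nn (k : K3) : 0 ≤ W785.DF.sq k := W785.DF.sq_nonneg' k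

theorem ab_nonneg (k : K3) : 0 ≤ ab k := Real.sqrt_nonneg _

theorem ab_sq (k : K3) : ab k ^ 2 = W785.DF.sq k := Real.sq_sqrt (sq_nn k)

theorem one_le_ab {k : K3} (hk : k ≠ 0) : 1 ≤ ab k := Real.one_le_sqrt.2 (W785.DF.one_le_sq hk)

theorem ab_le (k : K3) : ab k ≤ 1 + W785.DF.sq k := by
  have h1 := ab_nonneg k
  have h2 := ab_sq k
  nlinarith [sq_nonneg (ab k - 1)]

theorem abs_le_ab (k : K3) (j : Fin 3) : |(k j : ℝ)| ≤ ab k := by
  unfold ab
  apply Real.abs_le_sqrt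
  exact Finset.single_le_sum (f := fun j => (k j : ℝ) ^ 2) (fun _ _ => sq_nonneg _)
    (Finset.mem_univ j)

/-- cubes -/
noncomputable def Q (n : ℕ) : Finset K3 := (Fintype.piFinset fun _ : Fin 3 => Finset.Icc (-(n : ℤ)) n).erase 0

theorem mem_Q {n : ℕ} {k : K3} : k ∈ Q n ↔ k ≠ 0 ∧ ∀ j, |k j| ≤ n := by
  unfold Q
  rw [Finset.mem_erase, Fintype.mem_piFinset]
  simp only [Finset.mem_Icc, abs_le]

theorem Q_fr (n : ℕ) : Fr (Q n) := by
  refine ⟨fun h => (mem_Q.1 h).1 rfl, fun k hk => ?_⟩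
  rw [mem_Q] at hk ⊢
  refine ⟨neg_ne_zero.2 hk.1, fun j => ?_⟩
  rw [Pi.neg_apply, abs_neg]
  exact hk.2 j

theorem Q_mono {n m : ℕ} (h : n ≤ m) : Q n ⊆ Q m := by
  intro k hk
  rw [mem_Q] at hk ⊢
  refine ⟨hk.1, fun j => (hk.2 j).trans ?_⟩
  exact_mod_cast h

theorem Q_far {n : ℕ} {k : K3} (h0 : k ≠ 0) (h : k ∉ Q n) : (n : ℝ) + 1 ≤ ab k := by
  rw [mem_Q] at h
  push Not at h
  obtain ⟨j, hj⟩ := h h0
  have h1 : (n : ℤ) + 1 ≤ |k j| := hj
  have h2 : (n : ℝ) + 1 ≤ |(k j : ℝ)| := by exact_mod_cast h1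
  exact h2.trans (abs_le_ab k j)

theorem exists_mem_Q {k : K3} (hk : k ≠ 0) : ∃ n, k ∈ Q n := by
  refine ⟨∑ j, (k j).natAbs, mem_Q.2 ⟨hk, fun j => ?_⟩⟩
  rw [Int.abs_eq_natAbs]
  exact_mod_cast Finset.single_le_sum (f := fun j => (k j).natAbs) (fun _ _ => Nat.zero_le _)
    (Finset.mem_univ j)

theorem exists_Q {F : Finset K3} (hF : Fr F) : ∃ n, F ⊆ Q n := by
  classical
  have : ∀ G : Finset K3, G ⊆ F → ∃ n, G ⊆ Q n := by
    intro G
    induction G using Finset.induction_on with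
    | empty => exact fun _ => ⟨0, by simp⟩
    | insert a s _ ih =>
      intro hs
      obtain ⟨n, hn⟩ := ih ((Finset.subset_insert a s).trans hs)
      obtain ⟨m, hm⟩ := exists_mem_Q (hF.ne (hs (Finset.mem_insert_self a s)))
      refine ⟨max n m, fun k hk => ?_⟩
      rcases Finset.mem_insert.1 hk with rfl | hk
      · exact Q_mono (le_max_right _ _) hm
      · exact Q_mono (le_max_left _ _) (hn hk)
  exact this F (Finset.Subset.refl F)

/-! ### summability -/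

/-- coordinates -/
def eqv : K3 ≃ ℤ × ℤ × ℤ where
  toFun k := (k 0, k 1, k 2)
  invFun p := ![p.1, p.2.1, p.2.2]
  left_inv k := by funext i; fin_cases i <;> rfl
  right_inv p := rfl

theorem summable_int : Summable fun n : ℤ => 1 / (1 + (n : ℝ) ^ 2) := by
  have h : Summable fun n : ℤ => |(n : ℝ)| ^ (-2 : ℝ) := Real.summable_abs_int_rpow (by norm_num)
  have h2 := h.add (summable_of_hasFiniteSupport (f := fun n : ℤ => if n = 0 then (1 : ℝ) else 0)
    ((Set.finite_singleton (0 : ℤ)).subset fun n hn => by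
      by_contra h
      exact hn (if_neg h)))
  refine Summable.of_nonneg_of_le (fun n => by positivity) (fun n => ?_) h2
  by_cases hn : n = 0
  · subst hn; simp
  · rw [if_neg hn, add_zero]
    have hn' : (n : ℝ) ≠ 0 := by exact_mod_cast hn
    rw [Real.rpow_neg (abs_nonneg _), ← one_div, show (2 : ℝ) = ((2 : ℕ) : ℝ) by norm_num,
      Real.rpow_natCast, sq_abs]
    apply one_div_le_one_div_of_le (by positivity)
    linarith

theorem summable_K3 : Summable fun k : K3 =>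
    (1 / (1 + (k 0 : ℝ) ^ 2)) * ((1 / (1 + (k 1 : ℝ) ^ 2)) * (1 / (1 + (k 2 : ℝ) ^ 2))) := by
  have h1 := summable_int.mul_of_nonneg summable_int (fun n => by positivity)
    (fun n => by positivity)
  have h2 := summable_int.mul_of_nonneg h1 (fun n => by positivity)
    (fun p => by positivity)
  have h3 := (eqv.summable_iff (f := fun p : ℤ × ℤ × ℤ =>
    (1 / (1 + (p.1 : ℝ) ^ 2)) * ((1 / (1 + (p.2.1 : ℝ) ^ 2)) * (1 / (1 + (p.2.2 : ℝ) ^ 2))))).2 h2
  exact h3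

theorem summable_sq3 : Summable fun k : K3 => 1 / (1 + W785.DF.sq k) ^ 3 := by
  refine Summable.of_nonneg_of_le (fun k => ?_) (fun k => ?_) summable_K3
  · have := sq_nn k
    positivity
  · have e : W785.DF.sq k = (k 0 : ℝ) ^ 2 + (k 1 : ℝ) ^ 2 + (k 2 : ℝ) ^ 2 := by
      unfold W785.DF.sq
      rw [Fin.sum_univ_three]
    rw [e]
    clear e
    obtain ⟨a, ha⟩ : ∃ a : ℝ, a = (k 0 : ℝ) ^ 2 := ⟨_, rfl⟩
    obtain ⟨b, hb⟩ : ∃ b : ℝ, b = (k 1 : ℝ) ^ 2 := ⟨_, rfl⟩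
    obtain ⟨c, hc⟩ : ∃ c : ℝ, c = (k 2 : ℝ) ^ 2 := ⟨_, rfl⟩
    have ha0 : 0 ≤ a := by rw [ha]; positivity
    have hb0 : 0 ≤ b := by rw [hb]; positivity
    have hc0 : 0 ≤ c := by rw [hc]; positivity
    have e2 : 1 / (1 + a) * (1 / (1 + b) * (1 / (1 + c))) = 1 / ((1 + c) * (1 + b) * (1 + a)) := by
      field_simp
    rw [← ha, ← hb, ← hc, e2]
    apply one_div_le_one_div_of_le (by positivity)
    have h1 : 1 + a ≤ 1 + (a + b + c) := by linarith
    have h2 : 1 + b ≤ 1 + (a + b + c) := by linarith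
    have h3 : 1 + c ≤ 1 + (a + b + c) := by linarith
    calc (1 + c) * (1 + b) * (1 + a) ≤ (1 + (a + b + c)) * (1 + (a + b + c)) * (1 + (a + b + c)) := by
          gcongr
      _ = (1 + (a + b + c)) ^ 3 := by ring

/-! ### the nonlinear term -/

theorem Nl_eq_NlI {S : Finset K3} {a : K3 → E3} (h : ∀ k, k ∉ S → a k = 0) (k : K3) :
    Nl S a k = NlI a k := by
  unfold W785.DF.Nl NlI
  rw [tsum_eq_sum]
  intro l hl
  rw [h l hl, W785.DF.dk_zero, mul_zero, zero_smul]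

/-- rapidly decreasing with given constants -/
def Dec (D1 D3 : ℝ) (a : K3 → E3) : Prop :=
  (∀ k, (1 + W785.DF.sq k) ^ 1 * ‖a k‖ ≤ D1) ∧ ∀ k, (1 + W785.DF.sq k) ^ 3 * ‖a k‖ ≤ D3

theorem Dec.nonneg1 {D1 D3 : ℝ} {a : K3 → E3} (h : Dec D1 D3 a) : 0 ≤ D1 := by
  refine le_trans ?_ (h.1 0)
  have := sq_nn 0
  positivity

theorem Dec.nonneg3 {D1 D3 : ℝ} {a : K3 → E3} (h : Dec D1 D3 a) : 0 ≤ D3 := by
  refine le_trans ?_ (h.2 0)
  have := sq_nn 0
  positivity

theorem term_bound {D1 D3 : ℝ} {a : K3 → E3} (h : Dec D1 D3 a) (k l : K3) :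
    ‖(2 * Real.pi * Complex.I * dk (k - l) (a l)) • a (k - l)‖ ≤
      2 * Real.pi * D1 * D3 * (1 / (1 + W785.DF.sq l) ^ 3) := by
  have hpi := Real.pi_pos
  rw [norm_smul, norm_mul, norm_mul, norm_mul, Complex.norm_I, Complex.norm_real,
    Real.norm_of_nonneg hpi.le, Complex.norm_ofNat, mul_one]
  have h1 := W785.DF.norm_dk_le (k - l) (a l)
  have h2 : Real.sqrt (W785.DF.sq (k - l)) ≤ 1 + W785.DF.sq (k - l) := ab_le (k - l)
  have h3 := h.1 (k - l)
  rw [pow_one] at h3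
  have h4 : ‖a l‖ ≤ D3 * (1 / (1 + W785.DF.sq l) ^ 3) := by
    have := sq_nn l
    rw [mul_one_div, le_div_iff₀ (by positivity), mul_comm]
    exact h.2 l
  have h5 := sq_nn (k - l)
  have hD1 := h.nonneg1
  have hD3 := h.nonneg3
  calc 2 * Real.pi * ‖dk (k - l) (a l)‖ * ‖a (k - l)‖
      ≤ 2 * Real.pi * ((1 + W785.DF.sq (k - l)) * ‖a l‖) * ‖a (k - l)‖ := by
        gcongr
        exact h1.trans (mul_le_mul_of_nonneg_right h2 (norm_nonneg _))
    _ = 2 * Real.pi * ((1 + W785.DF.sq (k - l)) * ‖a (k - l)‖) * ‖a l‖ := by ring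
    _ ≤ 2 * Real.pi * D1 * (D3 * (1 / (1 + W785.DF.sq l) ^ 3)) := by
        gcongr
    _ = _ := by ring

theorem NlI_bound {D1 D3 : ℝ} {a : K3 → E3} (h : Dec D1 D3 a) (k : K3) :
    ‖NlI a k‖ ≤ ∑' l : K3, 2 * Real.pi * D1 * D3 * (1 / (1 + W785.DF.sq l) ^ 3) :=
  tsum_of_norm_bounded (summable_sq3.mul_left (2 * Real.pi * D1 * D3)).hasSum
    fun l => term_bound h k l

theorem dk_cont (k : K3) : Continuous (dk k) := by
  unfold W785.DF.dk
  refine continuous_finsetSum _ fun j _ => ?_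
  exact continuous_const.mul (by fun_prop)

theorem Pk_cont (k : K3) : Continuous (Pk k) := by
  unfold W785.DF.Pk
  exact continuous_id.sub (((dk_cont k).div_const _).smul continuous_const)

theorem cj_cont : Continuous cj := by
  have h : cj = fun v : E3 => WithLp.toLp 2 fun j => star (v j) := rfl
  rw [h]
  fun_prop

/-- convergence of the nonlinear term -/
theorem NlI_tendsto {D1 D3 : ℝ} {f : ℕ → K3 → E3} {a : K3 → E3} (h : ∀ n, Dec D1 D3 (f n))
    (hf : ∀ k, Tendsto (fun n => f n k) atTop (𝓝 (a k))) (k : K3) :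
    Tendsto (fun n => NlI (f n) k) atTop (𝓝 (NlI a k)) := by
  unfold NlI
  refine tendsto_tsum_of_dominated_convergence
    (summable_sq3.mul_left (2 * Real.pi * D1 * D3)) (fun l => ?_)
    (Eventually.of_forall fun n l => term_bound (h n) k l)
  have h1 : Tendsto (fun n => dk (k - l) (f n l)) atTop (𝓝 (dk (k - l) (a l))) :=
    ((dk_cont (k - l)).tendsto _).comp (hf l)
  exact (h1.const_mul _).smul (hf (k - l))

theorem NlI_cont {D1 D3 : ℝ} {x : ℝ → K3 → E3} (h : ∀ t, Dec D1 D3 (x t))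
    (hx : ∀ k, Continuous fun t => x t k) (k : K3) : Continuous fun t => NlI (x t) k := by
  unfold NlI
  refine continuous_tsum (fun l => ?_) (summable_sq3.mul_left (2 * Real.pi * D1 * D3))
    (fun l t => term_bound (h t) k l)
  have h1 : Continuous fun t => dk (k - l) (x t l) := (dk_cont (k - l)).comp (hx l)
  exact (continuous_const.mul h1).smul (hx (k - l))

/-! ### Galerkin solutions -/

theorem restrict {S : Finset K3} {ν T T' : ℝ} {b0 : K3 → E3} {x : ℝ → K3 → E3}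
    (h : NSG S ν T b0 x) (hT : T' ≤ T) : NSG S ν T' b0 x where
  fld t ht := h.fld t ⟨ht.1, ht.2.trans hT⟩
  smooth k := (h.smooth k).mono (Icc_subset_Icc_right hT)
  ode t ht k hk := (h.ode t ⟨ht.1, ht.2.trans hT⟩ k hk).mono (Icc_subset_Icc_right hT)
  init := h.init

theorem fld_mono {F S : Finset K3} {b0 : K3 → E3} (h : Fld F b0) (hFS : F ⊆ S) : Fld S b0 :=
  ⟨fun k hk => h.supp k fun hk' => hk (hFS hk'), h.sym, h.div⟩

theorem A_subset {m : ℕ} {F S : Finset K3} {b0 : K3 → E3} (h : Fld F b0) (hFS : F ⊆ S) :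
    A m S b0 = A m F b0 := by
  unfold A
  symm
  refine Finset.sum_subset hFS fun k _ hk => ?_
  rw [h.supp k hk, norm_zero, mul_zero]

/-- bounds for all weights, uniform in the set of frequencies and the time -/
theorem bounds (hprop : S_prop) {ν K θ ρ : ℝ} {F : Finset K3} {b0 : K3 → E3} (hν : 0 < ν)
    (hF : Fld F b0) (hb : Bd ν F b0 K θ ρ) (m : ℕ) :
    ∃ C : ℝ, 0 ≤ C ∧ ∀ S : Finset K3, Fr S → F ⊆ S → ∀ T : ℝ, 0 < T → ∀ x : ℝ → K3 → E3,
      NSG S ν T b0 x → ∀ t ∈ Icc 0 T, ∀ k, (1 + W785.DF.sq k) ^ m * ‖x t k‖ ≤ C := by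
  obtain ⟨C, hC, h⟩ := hprop.1 (2 * m)
  have hA0 : ∀ G : Finset K3, ∀ a : K3 → E3, 0 ≤ A (2 * m) G a := fun G a =>
    Finset.sum_nonneg fun k _ => mul_nonneg (pow_nonneg (ab_nonneg k) _) (norm_nonneg _)
  refine ⟨2 ^ m * (A (2 * m) F b0 * Real.exp (C / ν * |K|)), by
    have := hA0 F b0; positivity, ?_⟩
  intro S hS hFS T hT x hx t ht k
  have h1 := h S hS ν T hν hT b0 x hx t ht
  rw [A_subset hF hFS] at h1
  have h2 : (∫ s in (0 : ℝ)..t, A 0 S (x s) ^ 2) ≤ |K| := by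
    rcases ht.1.eq_or_lt with h0 | h0
    · rw [← h0, intervalIntegral.integral_same]
      exact abs_nonneg _
    · exact ((hb S hS hFS t h0 x (restrict hx ht.2)).1).trans (le_abs_self _)
  have h3 : A (2 * m) S (x t) ≤ A (2 * m) F b0 * Real.exp (C / ν * |K|) := by
    refine h1.trans (mul_le_mul_of_nonneg_left (Real.exp_le_exp.2 ?_) (hA0 F b0))
    exact mul_le_mul_of_nonneg_left h2 (by positivity)
  by_cases hk : k ∈ S
  · have h4 : ab k ^ (2 * m) * ‖x t k‖ ≤ A (2 * m) S (x t) := by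
      unfold A
      exact Finset.single_le_sum (f := fun k => ab k ^ (2 * m) * ‖x t k‖)
        (fun k _ => mul_nonneg (pow_nonneg (ab_nonneg k) _) (norm_nonneg _)) hk
    have h5 := W785.DF.one_le_sq (hS.ne hk)
    have h6 : (1 + W785.DF.sq k) ^ m ≤ 2 ^ m * ab k ^ (2 * m) := by
      rw [pow_mul, ab_sq, ← mul_pow]
      have := sq_nn k
      gcongr
      linarith
    calc (1 + W785.DF.sq k) ^ m * ‖x t k‖ ≤ 2 ^ m * ab k ^ (2 * m) * ‖x t k‖ :=
          mul_le_mul_of_nonneg_right h6 (norm_nonneg _)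
      _ = 2 ^ m * (ab k ^ (2 * m) * ‖x t k‖) := by ring
      _ ≤ _ := mul_le_mul_of_nonneg_left (h4.trans h3) (by positivity)
  · rw [(hx.fld t ht).supp k hk, norm_zero, mul_zero]
    have := hA0 F b0
    positivity

theorem A_cont {m : ℕ} {S : Finset K3} {ν T : ℝ} {b0 : K3 → E3} {x : ℝ → K3 → E3}
    (h : NSG S ν T b0 x) : ContinuousOn (fun t => A m S (x t)) (Icc 0 T) := by
  unfold A
  refine continuousOn_finsetSum _ fun k _ => ?_
  exact continuousOn_const.mul (h.smooth k).continuousOn.norm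

/-- the norm `∑ |x|` is small after the time `2 θ` -/
theorem late (hprop : S_prop) {ν K θ ρ : ℝ} {F : Finset K3} {b0 : K3 → E3} (hν : 0 < ν)
    (hθ : 0 < θ) (hb : Bd ν F b0 K θ ρ) (hρ : ρ / θ ≤ Real.pi * ν / 2) {S : Finset K3}
    (hS : Fr S) (hFS : F ⊆ S) {T : ℝ} {x : ℝ → K3 → E3} (hx : NSG S ν T b0 x) {t : ℝ}
    (ht : 2 * θ ≤ t) (htT : t ≤ T) : A 0 S (x t) ≤ ρ / θ := by
  have hT : 0 < T := by linarith
  have h1 := (hb S hS hFS (2 * θ) (by linarith) x (restrict hx (ht.trans htT))).2 (by linarith)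
  obtain ⟨t0, ht0, h2⟩ : ∃ t0 ∈ Icc θ (2 * θ), A 1 S (x t0) ≤ ρ / θ := by
    by_contra hcon
    push Not at hcon
    have hc : ContinuousOn (fun s => A 1 S (x s)) (Icc θ (2 * θ)) :=
      (A_cont hx).mono (Icc_subset_Icc hθ.le (ht.trans htT))
    have h3 : (∫ _s in θ..(2 * θ), ρ / θ) < ∫ s in θ..(2 * θ), A 1 S (x s) := by
      refine intervalIntegral.integral_lt_integral_of_continuousOn_of_le_of_exists_lt (by linarith)
        continuousOn_const hc (fun s hs => (hcon s ⟨hs.1.le, hs.2⟩).le)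
        ⟨θ, ⟨le_rfl, by linarith⟩, hcon θ ⟨le_rfl, by linarith⟩⟩
    rw [intervalIntegral.integral_const, smul_eq_mul] at h3
    have h4 : (2 * θ - θ) * (ρ / θ) = ρ := by field_simp; ring
    rw [h4] at h3
    linarith
  have h5 : A 0 S (x t0) ≤ A 1 S (x t0) := by
    unfold A
    refine Finset.sum_le_sum fun k hk => ?_
    rw [pow_zero, pow_one]
    exact mul_le_mul_of_nonneg_right (one_le_ab (hS.ne hk)) (norm_nonneg _)
  have h6 : t0 ∈ Icc 0 T := ⟨hθ.le.trans ht0.1, ht0.2.trans (ht.trans htT)⟩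
  have h7 := hprop.2 S hS ν T hν hT b0 x hx t0 h6 ((h5.trans h2).trans hρ) t
    ⟨ht0.2.trans ht, htT⟩
  exact h7.trans (h5.trans h2)

theorem sum_le_A {S : Finset K3} {a : K3 → E3} (h : ∀ k, k ∉ S → a k = 0) (G : Finset K3) :
    ∑ k ∈ G, ‖a k‖ ≤ A 0 S a := by
  classical
  unfold A
  simp only [pow_zero, one_mul]
  have h1 : ∑ k ∈ G, ‖a k‖ = ∑ k ∈ G ∩ S, ‖a k‖ := by
    symm
    refine Finset.sum_subset Finset.inter_subset_left fun k hk hk' => ?_
    rw [h k (fun hS => hk' (Finset.mem_inter.2 ⟨hk, hS⟩)), norm_zero]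
  rw [h1]
  exact Finset.sum_le_sum_of_subset_of_nonneg Finset.inter_subset_right
    fun k _ _ => norm_nonneg _


end Pool.Agent.W143.DD.Limit
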