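import Mathlib
import Pool.Agent.W143.DD.LimitA

set_option autoImplicit false

open MeasureTheory Set Filter Topology
open scoped ContDiff InnerProductSpace

namespace Pool.Agent.W143.DD.Limit

open H459R3.NS (V K3)
open Pool.Agent.W785.DF (E3 dk kv cj Pk Nl Fld Fr)
open Pool.Agent.W795.DD

/-- The right side of the Galerkin system is continuous. -/
theorem rhs_cont {S : Finset K3} {ν T : ℝ} {b0 : K3 → E3} {x : ℝ → K3 → E3}
    (h : NSG S ν T b0 x) (k : K3) :
    ContinuousOn (fun t => -(lam ν k • x t k) - Pk k (Nl S (x t) k)) (Icc 0 T) := by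
  have hc : ∀ k, ContinuousOn (fun t => x t k) (Icc 0 T) := fun k => (h.smooth k).continuousOn
  have h1 : ContinuousOn (fun t => Nl S (x t) k) (Icc 0 T) := by
    have e : (fun t => Nl S (x t) k) = fun t =>
      ∑ l ∈ S, (2 * Real.pi * Complex.I * dk (k - l) (x t l)) • x t (k - l) := rfl
    rw [e]
    refine continuousOn_finsetSum _ fun l _ => ?_
    have h2 : ContinuousOn (fun t => dk (k - l) (x t l)) (Icc 0 T) :=
      (dk_cont (k - l)).comp_continuousOn (hc l)
    have h3 : ContinuousOn (fun t => 2 * Real.pi * Complex.I * dk (k - l) (x t l)) (Icc 0 T) :=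
      continuousOn_const.mul h2
    exact ContinuousOn.smul h3 (hc (k - l))
  have h4 : ContinuousOn (fun t => Pk k (Nl S (x t) k)) (Icc 0 T) :=
    (Pk_cont k).comp_continuousOn h1
  have h5 : ContinuousOn (fun t => lam ν k • x t k) (Icc 0 T) :=
    (continuous_const_smul (lam ν k)).comp_continuousOn (hc k)
  exact ContinuousOn.sub (ContinuousOn.neg h5) h4

theorem ftc {S : Finset K3} {ν T : ℝ} {b0 : K3 → E3} {x : ℝ → K3 → E3}
    (h : NSG S ν T b0 x) {k : K3} (hk : k ∈ S) {t : ℝ} (ht : t ∈ Icc 0 T) :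
    x t k = b0 k + ∫ s in (0 : ℝ)..t, (-(lam ν k • x s k) - Pk k (Nl S (x s) k)) := by
  have h1 : (∫ s in (0 : ℝ)..t, (-(lam ν k • x s k) - Pk k (Nl S (x s) k))) = x t k - x 0 k := by
    refine intervalIntegral.integral_eq_sub_of_hasDeriv_right_of_le ht.1
      ((h.smooth k).continuousOn.mono (Icc_subset_Icc_right ht.2)) (fun s hs => ?_) ?_
    · have h2 := h.ode s ⟨hs.1.le, hs.2.le.trans ht.2⟩ k hk
      have h3 : Icc 0 T ∈ 𝓝 s := Icc_mem_nhds hs.1 (hs.2.trans_le ht.2)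
      exact (h2.hasDerivAt h3).hasDerivWithinAt
    · refine ContinuousOn.intervalIntegrable ?_
      rw [uIcc_of_le ht.1]
      exact (rhs_cont h k).mono (Icc_subset_Icc_right ht.2)
  rw [h1, h.init]
  abel

theorem rhsI_cont {ν D1 D3 : ℝ} {x : ℝ → K3 → E3} (h : ∀ t, Dec D1 D3 (x t))
    (hx : ∀ k, Continuous fun t => x t k) (k : K3) :
    Continuous fun s => -(lam ν k • x s k) - Pk k (NlI (x s) k) := by
  have h1 : Continuous fun s => lam ν k • x s k := (continuous_const_smul (lam ν k)).comp (hx k)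
  have h2 : Continuous fun s => Pk k (NlI (x s) k) := (Pk_cont k).comp (NlI_cont h hx k)
  exact Continuous.sub (Continuous.neg h1) h2

theorem rhsI_tendsto {ν D1 D3 : ℝ} {f : ℕ → K3 → E3} {a : K3 → E3} (h : ∀ n, Dec D1 D3 (f n))
    (hf : ∀ k, Tendsto (fun n => f n k) atTop (𝓝 (a k))) (k : K3) :
    Tendsto (fun n => -(lam ν k • f n k) - Pk k (NlI (f n) k)) atTop
      (𝓝 (-(lam ν k • a k) - Pk k (NlI a k))) := by
  have h1 : Tendsto (fun n => lam ν k • f n k) atTop (𝓝 (lam ν k • a k)) :=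
    ((continuous_const_smul (lam ν k)).tendsto (a k)).comp (hf k)
  have h2 : Tendsto (fun n => Pk k (NlI (f n) k)) atTop (𝓝 (Pk k (NlI a k))) :=
    ((Pk_cont k).tendsto _).comp (NlI_tendsto h hf k)
  exact Tendsto.sub (Tendsto.neg h1) h2

theorem rhsI_bound {ν D1 D3 : ℝ} {a : K3 → E3} (h : Dec D1 D3 a) (k : K3) :
    ‖-(lam ν k • a k) - Pk k (NlI a k)‖ ≤ ‖lam ν k‖ * D1 +
      ∑' l : K3, 2 * Real.pi * D1 * D3 * (1 / (1 + W785.DF.sq l) ^ 3) := by
  have a1 : ‖lam ν k • a k‖ ≤ ‖lam ν k‖ * D1 := by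
    rw [norm_smul]
    refine mul_le_mul_of_nonneg_left ?_ (norm_nonneg _)
    have h3 := h.1 k
    rw [pow_one] at h3
    have h4 := sq_nn k
    have h5 := norm_nonneg (a k)
    nlinarith
  have a2 : ‖Pk k (NlI a k)‖ ≤
      ∑' l : K3, 2 * Real.pi * D1 * D3 * (1 / (1 + W785.DF.sq l) ^ 3) :=
    (W785.DF.norm_Pk_le _ _).trans (NlI_bound h k)
  refine (norm_sub_le _ _).trans ?_
  rw [norm_neg]
  exact add_le_add a1 a2

end Pool.Agent.W143.DD.Limit
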