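import Mathlib
import Pool.Agent.W143.DD.LimitB

/-!
# Project DD, subtask DD-LIMIT: the limit of the Galerkin solutions
-/

set_option autoImplicit false

open MeasureTheory Set Filter Topology
open scoped ContDiff InnerProductSpace

namespace Pool.Agent.W143.DD.Limit

open H459R3.NS (V K3)
open Pool.Agent.W785.DF (E3 dk kv cj Pk Nl Fld Fr)
open Pool.Agent.W795.DD

/-! ### the limit -/

/-- The theorem DD-LIMIT. -/
theorem proof (hex : S_ex) (hprop : S_prop) (hc : S_cauchy) : S_limit := by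
  intro ν K θ ρ F b0 hν hθ hF hFb hbd hρ
  obtain ⟨n0, hn0⟩ := exists_Q hF
  -- the Galerkin solutions
  have hsub : ∀ n : ℕ, F ⊆ Q (n + n0) := fun n => hn0.trans (Q_mono (by omega))
  have hex' : ∀ n : ℕ, ∃ y : ℝ → K3 → E3, NSG (Q (n + n0)) ν ((n : ℝ) + 1) b0 y := fun n =>
    hex (Q (n + n0)) (Q_fr _) ν ((n : ℝ) + 1) hν (by positivity) b0 (fld_mono hFb (hsub n))
  choose y hy using hex'
  -- clamp the time
  let cl : ℕ → ℝ → ℝ := fun n t => min (max t 0) ((n : ℝ) + 1)
  have hcl : ∀ (n : ℕ) (t : ℝ), cl n t ∈ Icc 0 ((n : ℝ) + 1) := fun n t =>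
    ⟨le_min (le_max_right _ _) (by positivity), min_le_right _ _⟩
  have hclc : ∀ n, Continuous (cl n) := fun n =>
    (continuous_id.max continuous_const).min continuous_const
  have hcle : ∀ (n : ℕ) (t : ℝ), 0 ≤ t → t ≤ (n : ℝ) + 1 → cl n t = t := by
    intro n t h0 h1
    show min (max t 0) ((n : ℝ) + 1) = t
    rw [max_eq_left h0, min_eq_left h1]
  let Y : ℕ → ℝ → K3 → E3 := fun n t => y n (cl n t)
  have hYfld : ∀ n t, Fld (Q (n + n0)) (Y n t) := fun n t => (hy n).fld _ (hcl n t)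
  have hYc : ∀ n k, Continuous fun t => Y n t k := fun n k =>
    ((hy n).smooth k).continuousOn.comp_continuous (hclc n) (hcl n)
  -- bounds
  have hbound : ∀ m : ℕ, ∃ C : ℝ, 0 ≤ C ∧ ∀ n t k, (1 + W785.DF.sq k) ^ m * ‖Y n t k‖ ≤ C := by
    intro m
    obtain ⟨C, hC, h⟩ := bounds hprop hν hFb hbd m
    exact ⟨C, hC, fun n t k =>
      h (Q (n + n0)) (Q_fr _) (hsub n) ((n : ℝ) + 1) (by positivity) (y n) (hy n) _ (hcl n t) k⟩
  obtain ⟨D1, hD1, hD1'⟩ := hbound 1
  obtain ⟨D3, hD3, hD3'⟩ := hbound 3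
  have hdec : ∀ n t, Dec D1 D3 (Y n t) := fun n t => ⟨hD1' n t, hD3' n t⟩
  -- Cauchy estimate
  have hcau : ∀ T : ℝ, 0 < T → ∃ (C : ℝ) (N0 : ℕ), 0 < C ∧ ∀ n m : ℕ, N0 ≤ n → n ≤ m → ∀ t, t ≤ T →
      ∀ k, ‖Y m t k - Y n t k‖ ≤ C * ab k / ((n : ℝ) + 1) := by
    intro T hT
    obtain ⟨C, R0, hC, hR0, h⟩ := hc ν K θ ρ F b0 hν hF hFb hbd T hT
    obtain ⟨N0, hN0⟩ := exists_nat_ge (max T R0)
    refine ⟨C, N0, hC, fun n m hn hnm t ht k => ?_⟩
    have hn' : (N0 : ℝ) ≤ n := by exact_mod_cast hn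
    have hnm' : (n : ℝ) ≤ m := by exact_mod_cast hnm
    have hTn : T ≤ (n : ℝ) + 1 := by linarith [le_max_left T R0]
    have hTm : T ≤ (m : ℝ) + 1 := by linarith
    have hRn : R0 ≤ (n : ℝ) + 1 := by linarith [le_max_right T R0]
    have ht0 : max t 0 ≤ T := max_le ht hT.le
    have e1 : cl n t = max t 0 := min_eq_left (ht0.trans hTn)
    have e2 : cl m t = max t 0 := min_eq_left (ht0.trans hTm)
    show ‖y m (cl m t) k - y n (cl n t) k‖ ≤ _
    rw [e1, e2]
    refine h ((n : ℝ) + 1) hRn (Q (n + n0)) (Q (m + n0)) (Q_fr _) (Q_fr _) (hsub n)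
      (Q_mono (by omega)) (fun k hk hk' => ?_) (y n) (y m) (restrict (hy n) hTn)
      (restrict (hy m) hTm) (max t 0) ⟨le_max_right _ _, ht0⟩ k
    have h1 := Q_far (mem_Q.1 hk).1 hk'
    push_cast at h1
    have : (0 : ℝ) ≤ n0 := by positivity
    linarith
  -- the limit
  have hlim : ∀ t k, ∃ v : E3, Tendsto (fun n => Y n t k) atTop (𝓝 v) := by
    intro t k
    obtain ⟨C, N0, hC, h⟩ := hcau (max t 0 + 1) (by positivity)
    apply cauchySeq_tendsto_of_complete
    refine Metric.cauchySeq_iff'.2 fun ε hε => ?_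
    obtain ⟨N, hN⟩ := exists_nat_gt (C * ab k / ε)
    refine ⟨max N N0, fun n hn => ?_⟩
    rw [dist_eq_norm]
    have h1 := h (max N N0) n (le_max_right _ _) hn t (by linarith [le_max_left t 0]) k
    refine h1.trans_lt ?_
    have h2 : (N : ℝ) ≤ ((max N N0 : ℕ) : ℝ) := by exact_mod_cast le_max_left N N0
    rw [div_lt_iff₀ (by positivity)]
    rw [div_lt_iff₀ hε] at hN
    nlinarith
  choose x hx using hlim
  -- uniform convergence
  have hunif : ∀ T : ℝ, 0 < T → ∃ (C : ℝ) (N0 : ℕ), 0 < C ∧ ∀ n : ℕ, N0 ≤ n → ∀ t, t ≤ T →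
      ∀ k, ‖x t k - Y n t k‖ ≤ C * ab k / ((n : ℝ) + 1) := by
    intro T hT
    obtain ⟨C, N0, hC, h⟩ := hcau T hT
    refine ⟨C, N0, hC, fun n hn t ht k => ?_⟩
    have h1 : Tendsto (fun m => ‖Y m t k - Y n t k‖) atTop (𝓝 ‖x t k - Y n t k‖) :=
      ((hx t k).sub_const _).norm
    refine le_of_tendsto h1 ?_
    filter_upwards [eventually_ge_atTop n] with m hm
    exact h n m hn hm t ht k
  have hxc : ∀ k, Continuous fun t => x t k := by
    intro k
    rw [continuous_iff_continuousAt]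
    intro t
    obtain ⟨C, N0, hC, h⟩ := hunif (max t 0 + 1) (by positivity)
    have h1 : TendstoUniformlyOn (fun n t => Y n t k) (fun t => x t k) atTop
        (Iic (max t 0 + 1)) := by
      rw [Metric.tendstoUniformlyOn_iff]
      intro ε hε
      obtain ⟨N, hN⟩ := exists_nat_gt (C * ab k / ε)
      filter_upwards [eventually_ge_atTop (max N N0)] with n hn s hs
      rw [dist_eq_norm]
      refine (h n ((le_max_right _ _).trans hn) s hs k).trans_lt ?_
      have h2 : (N : ℝ) ≤ (n : ℝ) := by exact_mod_cast (le_max_left N N0).trans hn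
      rw [div_lt_iff₀ (by positivity)]
      rw [div_lt_iff₀ hε] at hN
      nlinarith
    have h2 : ContinuousOn (fun t => x t k) (Iic (max t 0 + 1)) :=
      h1.continuousOn (Frequently.of_forall fun n => (hYc n k).continuousOn)
    exact h2.continuousAt (Iic_mem_nhds (by linarith [le_max_left t 0]))
  have hxdec : ∀ m : ℕ, ∃ C : ℝ, 0 ≤ C ∧ ∀ t k, (1 + W785.DF.sq k) ^ m * ‖x t k‖ ≤ C := by
    intro m
    obtain ⟨C, hC, h⟩ := hbound m
    refine ⟨C, hC, fun t k => ?_⟩
    exact le_of_tendsto ((hx t k).norm.const_mul _) (Eventually.of_forall fun n => h n t k)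
  have hxdec13 : ∀ t, Dec D1 D3 (x t) := fun t =>
    ⟨fun k => le_of_tendsto ((hx t k).norm.const_mul _) (Eventually.of_forall fun n => hD1' n t k),
     fun k => le_of_tendsto ((hx t k).norm.const_mul _) (Eventually.of_forall fun n => hD3' n t k)⟩
  have hdiv : ∀ t k, dk k (x t k) = 0 := by
    intro t k
    have h1 : Tendsto (fun n => dk k (Y n t k)) atTop (𝓝 (dk k (x t k))) :=
      ((dk_cont k).tendsto _).comp (hx t k)
    have h2 : (fun n => dk k (Y n t k)) = fun _ => (0 : ℂ) := by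
      funext n; exact (hYfld n t).div k
    rw [h2] at h1
    exact (tendsto_nhds_unique h1 tendsto_const_nhds)
  have hzero : ∀ t, x t 0 = 0 := by
    intro t
    have h1 := hx t 0
    have h2 : (fun n => Y n t 0) = fun _ => (0 : E3) := by
      funext n; exact (hYfld n t).supp 0 (Q_fr _).zero
    rw [h2] at h1
    exact (tendsto_nhds_unique h1 tendsto_const_nhds)
  have hsym : ∀ t k, x t (-k) = cj (x t k) := by
    intro t k
    have h1 : Tendsto (fun n => cj (Y n t k)) atTop (𝓝 (cj (x t k))) :=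
      (cj_cont.tendsto _).comp (hx t k)
    have h2 : (fun n => cj (Y n t k)) = fun n => Y n t (-k) := by
      funext n; exact ((hYfld n t).sym k).symm
    rw [h2] at h1
    exact tendsto_nhds_unique (hx t (-k)) h1
  have hinit : x 0 = b0 := by
    funext k
    have h1 := hx 0 k
    have h2 : (fun n => Y n 0 k) = fun _ => b0 k := by
      funext n
      show y n (cl n 0) k = b0 k
      rw [hcle n 0 le_rfl (by positivity), (hy n).init]
    rw [h2] at h1
    exact (tendsto_nhds_unique h1 tendsto_const_nhds)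
  -- the equation in integral form
  have hint : ∀ k, k ≠ 0 → ∀ t, 0 ≤ t → x t k = b0 k +
      ∫ s in (0 : ℝ)..t, (-(lam ν k • x s k) - Pk k (NlI (x s) k)) := by
    intro k hk t ht
    obtain ⟨nk, hnk⟩ := exists_mem_Q hk
    obtain ⟨M, hM⟩ : ∃ M : ℝ, M = ‖lam ν k‖ * D1 +
      ∑' l : K3, 2 * Real.pi * D1 * D3 * (1 / (1 + W785.DF.sq l) ^ 3) := ⟨_, rfl⟩
    have h1 : Tendsto (fun n => b0 k + ∫ s in (0 : ℝ)..t,
        (-(lam ν k • Y n s k) - Pk k (NlI (Y n s) k))) atTop (𝓝 (b0 k +
        ∫ s in (0 : ℝ)..t, (-(lam ν k • x s k) - Pk k (NlI (x s) k)))) := by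
      refine Tendsto.const_add _ ?_
      refine intervalIntegral.tendsto_integral_filter_of_dominated_convergence (fun _ => M)
        (Eventually.of_forall fun n => ?_) (Eventually.of_forall fun n => ?_)
        intervalIntegrable_const ?_
      · exact (rhsI_cont (ν := ν) (fun t => hdec n t) (hYc n) k).aestronglyMeasurable
      · refine Eventually.of_forall fun s _ => ?_
        rw [hM]
        exact rhsI_bound (hdec n s) k
      · refine Eventually.of_forall fun s _ => ?_
        exact rhsI_tendsto (fun n => hdec n s) (fun k => hx s k) k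
    refine tendsto_nhds_unique (hx t k) (h1.congr' ?_)
    obtain ⟨nt, hnt⟩ := exists_nat_ge t
    filter_upwards [eventually_ge_atTop (max nk nt)] with n hn
    have hn1 : nk ≤ n := (le_max_left _ _).trans hn
    have hn2 : (nt : ℝ) ≤ n := by exact_mod_cast (le_max_right _ _).trans hn
    have htn : t ≤ (n : ℝ) + 1 := by linarith
    have h2 := ftc (hy n) (Q_mono (by omega : nk ≤ n + n0) hnk) (t := t) ⟨ht, htn⟩
    have h3 : Y n t k = y n t k := by
      show y n (cl n t) k = _
      rw [hcle n t ht htn]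
    rw [h3, h2]
    congr 1
    refine intervalIntegral.integral_congr fun s hs => ?_
    rw [uIcc_of_le ht] at hs
    have h4 : Y n s = y n s := by
      show y n (cl n s) = _
      rw [hcle n s hs.1 (hs.2.trans htn)]
    show -(lam ν k • Y n s k) - Pk k (NlI (Y n s) k) = -(lam ν k • y n s k) - Pk k (Nl _ (y n s) k)
    rw [h4, Nl_eq_NlI ((hy n).fld s ⟨hs.1, hs.2.trans htn⟩).supp]
  have hode : ∀ t, 0 ≤ t → ∀ k, HasDerivWithinAt (fun s => x s k)
      (-(lam ν k • x t k) - Pk k (NlI (x t) k)) (Ici 0) t := by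
    intro t ht k
    by_cases hk : k = 0
    · subst hk
      have h1 : NlI (x t) 0 = 0 := by
        unfold NlI
        have : (fun l : K3 => (2 * Real.pi * Complex.I * dk (0 - l) (x t l)) • x t (0 - l)) =
            fun _ => 0 := by
          funext l
          rw [zero_sub, W785.DF.dk_neg_left, hdiv t l, neg_zero, mul_zero, zero_smul]
        rw [this, tsum_zero]
      rw [h1, hzero t, W785.DF.Pk_zero, smul_zero, neg_zero, sub_zero]
      have h2 : (fun s => x s 0) = fun _ => (0 : E3) := funext hzero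
      rw [h2]
      exact hasDerivWithinAt_const _ _ _
    · have hcont : Continuous fun s => -(lam ν k • x s k) - Pk k (NlI (x s) k) :=
        rhsI_cont hxdec13 hxc k
      have h1 : HasDerivAt (fun t => b0 k + ∫ s in (0 : ℝ)..t,
          (-(lam ν k • x s k) - Pk k (NlI (x s) k)))
          (-(lam ν k • x t k) - Pk k (NlI (x t) k)) t := by
        refine HasDerivAt.const_add _ ?_
        exact intervalIntegral.integral_hasDerivAt_right (hcont.intervalIntegrable _ _)
          (hcont.stronglyMeasurableAtFilter _ _) hcont.continuousAt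
      exact (h1.hasDerivWithinAt (s := Ici 0)).congr (fun s hs => hint k hk s hs) (hint k hk t ht)
  refine ⟨x, ⟨fun t _ => hzero t, fun t _ k => hsym t k, fun t _ k => hdiv t k, fun m => ?_,
    hode, hinit⟩, ?_⟩
  · obtain ⟨C, _, h⟩ := hxdec m
    exact ⟨C, fun t _ k => h t k⟩
  · intro t ht G
    have h1 : Tendsto (fun n => ∑ k ∈ G, ‖Y n t k‖) atTop (𝓝 (∑ k ∈ G, ‖x t k‖)) :=
      tendsto_finsetSum _ fun k _ => (hx t k).norm
    refine le_of_tendsto h1 ?_
    obtain ⟨nt, hnt⟩ := exists_nat_ge t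
    filter_upwards [eventually_ge_atTop nt] with n hn
    have hn2 : (nt : ℝ) ≤ n := by exact_mod_cast hn
    have htn : t ≤ (n : ℝ) + 1 := by linarith
    have ht0 : 0 ≤ t := by linarith
    have h3 : Y n t = y n t := by
      show y n (cl n t) = _
      rw [hcle n t ht0 htn]
    refine (sum_le_A (hYfld n t).supp G).trans ?_
    rw [h3]
    exact late hprop hν hθ hbd hρ (Q_fr _) (hsub n) (hy n) ht htn

end Pool.Agent.W143.DD.Limit
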